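import Mathlib
import Pool.Agent.H71.Para

set_option autoImplicit false

namespace Pool.Agent.Results.MP_66ce2c_al.QOne

open scoped commutatorElement
open Pool.Agent.H71.Fox Pool.Agent.H71.Para

/-- lower central series; `gamma G n` is the `(n+1)`-st term of the problem text -/
abbrev gamma (G : Type) [Group G] (n : ℕ) : Subgroup G := (⊤ : Subgroup G).lowerCentralSeries n

/-- residually nilpotent with the lower central quotients of a free group -/
def Parafree (G : Type) [Group G] : Prop :=
  ⨅ n, gamma G n = ⊥ ∧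
    ∃ X : Type, ∀ n, Nonempty (G ⧸ gamma G n ≃* FreeGroup X ⧸ gamma (FreeGroup X) n)

/-- no nontrivial element of finite order -/
def TorsionFree (G : Type) [Group G] : Prop := ∀ (g : G) (n : ℕ), 1 ≤ n → g ^ n = 1 → g = 1

theorem result : ∃ (G : Type) (_ : Group G), Parafree G ∧ Group.FG G ∧
    ∃ (N : Subgroup G) (_ : N.Normal), TorsionFree (N ⧸ commutator N) ∧
      ¬ TorsionFree (G ⧸ ⁅N, N⁆) := by
  refine ⟨P, inferInstance, ⟨resid, Fin 2, lcs⟩, inferInstance,
    (fb f₁ f₁_r).ker, inferInstance, tf f₁ f₁_r f₁_surj H₁, fun h => ?_⟩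
  · have := h ((g₁ : P) : P ⧸ _) 3 (by norm_num)
      ((QuotientGroup.eq_one_iff _).2 ((bridge f₁ f₁_r f₁_surj _).2 g₁_mem))
    have := ((bridge f₁ f₁_r f₁_surj _).1 ((QuotientGroup.eq_one_iff _).1 this)).1
    rw [MonoidHom.comp_apply, f₁_g, ← map_one (MonoidAlgebra.of ℤ D)] at this
    exact absurd (MonoidAlgebra.of_injective this) (by decide)

end Pool.Agent.Results.MP_66ce2c_al.QOne
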