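import Mathlib
import Pool.Agent.H71.Para

set_option autoImplicit false

namespace Pool.Agent.Results.MP_66ce2c_al.QTwo

open scoped commutatorElement
open Pool.Agent.H71.Fox Pool.Agent.H71.Para

/-- lower central series; `gamma G n` is the `(n+1)`-st term of the problem text -/
abbrev gamma (G : Type) [Group G] (n : ℕ) : Subgroup G := (⊤ : Subgroup G).lowerCentralSeries n

/-- residually nilpotent with the lower central quotients of a free group -/
def Parafree (G : Type) [Group G] : Prop :=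
  ⨅ n, gamma G n = ⊥ ∧
    ∃ X : Type, ∀ n, Nonempty (G ⧸ gamma G n ≃* FreeGroup X ⧸ gamma (FreeGroup X) n)

/-- no nontrivial element of finite order -/
def TorsionFree (G : Type) [Group G] : Prop := ∀ (g : G) (n : ℕ), 1 ≤ n → g ^ n = 1 → g = 1

/-- roots are unique -/
def UGroup (G : Type) [Group G] : Prop := ∀ (x y : G) (n : ℕ), 1 ≤ n → x ^ n = y ^ n → x = y

theorem result : ∃ (G : Type) (_ : Group G), Parafree G ∧ Group.FG G ∧
    ∃ (N : Subgroup G) (_ : N.Normal), TorsionFree (N ⧸ commutator N) ∧ TorsionFree (G ⧸ N) ∧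
      ¬ UGroup (G ⧸ ⁅N, N⁆) := by
  refine ⟨P, inferInstance, ⟨resid, Fin 2, lcs⟩, inferInstance,
    (fb f₂ f₂_r).ker, inferInstance, tf f₂ f₂_r f₂_surj H₂, fun g n hn e => ?_, fun h => ?_⟩
  · obtain ⟨g, rfl⟩ := QuotientGroup.mk_surjective g
    rw [← QuotientGroup.mk_pow, QuotientGroup.eq_one_iff, MonoidHom.mem_ker, map_pow] at e
    exact (QuotientGroup.eq_one_iff _).2 ((pow_eq_one_iff_left (by omega)).1 e)
  · let p := (QuotientGroup.mk' ⁅(fb f₂ f₂_r).ker, (fb f₂ f₂_r).ker⁆).comp (QuotientGroup.mk' T)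
    have h1 : p (m₂ * (a * m₂ * a⁻¹)) = 1 :=
      (QuotientGroup.eq_one_iff _).2 ((bridge f₂ f₂_r f₂_surj _).2 m₂_mem)
    have h2 := h (p (m₂ * a)) (p a) 2 (by norm_num) (by
      rw [← map_pow, ← map_pow, ← one_mul (p (a ^ 2)), ← h1, ← map_mul]
      simp only [pow_two, mul_assoc, inv_mul_cancel_left])
    rw [map_mul, mul_eq_right] at h2
    exact m₂_not ((bridge f₂ f₂_r f₂_surj _).1 ((QuotientGroup.eq_one_iff _).1 h2))

end Pool.Agent.Results.MP_66ce2c_al.QTwo
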